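import Pool.Agent.Helper3.ZM.Win
import Pool.Agent.Helper42.NS.Deg

/-! `ST D m` is monotone in the degree `D`. -/

set_option autoImplicit false

namespace Pool.Agent.Helper39.TOP

open Pool.Agent.Helper69.RK Pool.Agent.Helper31.EC Pool.Agent.Helper40.EL
open Pool.Agent.Helper31.EC.Sp
open Pool.Agent.Helper95.LF Pool.Agent.Helper3.LF Pool.Agent.Helper48.NS Pool.Agent.Helper89.LX
open Pool.Agent.Helper3.PR
open Pool.Agent.Helper59.EV (rvol ST)

/-- `ST` for a degree gives `ST` for all larger degrees: the hull gets smaller -/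
theorem st_deg {m D D' : ℕ} (h : D ≤ D') (hst : ST D m) : ST D' m := by
  intro S s x hx
  obtain ⟨y, hy⟩ := exists_can s D 0
  have h1 := hst S s y hy
  rw [Pool.Agent.Helper3.ZM.rvol_can s hy] at h1
  rw [Pool.Agent.Helper3.ZM.rvol_can s hx,
    Pool.Agent.Helper3.ZM.h_kap (l := Pool.Agent.Helper59.EV.lb x) (l' := Pool.Agent.Helper59.EV.lb y) hx.2 hy.2]
  have h2 := Pool.Agent.Helper42.NS.lvol_deg h s 0
  have h3 : (m : ℝ) - lvol s D' 0 / 2 ≤ m - lvol s D 0 / 2 := by linarith
  exact h3.trans h1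

end Pool.Agent.Helper39.TOP
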