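import Pool.Agent.Helper39.TOP.Deg
import Pool.Agent.Helper83.NSA.Top
import Pool.Agent.Helper32.TOP.Nw
import Pool.Agent.Helper40.NSK.Top4
import Pool.Agent.Helper68.ST2.Top

/-! THE THEOREM FOR `R^4`: `EK 3`. -/

set_option autoImplicit false

namespace Pool.Agent.Helper39.TOP

/-- **`EK 3`** -/
theorem ek3 : Pool.Agent.Helper89.LS.EK 3 :=
  Pool.Agent.Helper40.NSK.ek3_of (fun _ hD => st_deg hD Pool.Agent.Helper68.ST2.st12)
    Pool.Agent.Helper83.NSA.st_ca Pool.Agent.Helper32.TOP.st_cb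

end Pool.Agent.Helper39.TOP
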